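import Mathlib
import Pool.Agent.V114.DivPow

/-!
Two non-isomorphic finitely presented graded modules over the integral divided power algebra
with isomorphic truncations.
-/

namespace Pool.Agent.Results.MP_c3bf79_al.EnvelopesNotUnique

open Pool.Agent.V114.DivPow

noncomputable section

variable (k : Type) [CommRing k]

/-- generator degrees -/
def dd : Fin 2 → ℤ := fun _ => 0
/-- relation degrees -/
def ee : Fin 5 → ℤ := ![1, 1, 5, 25, 125]

/-- the free module on two generators of degree `0` -/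
abbrev F : GrMod k (classical k) := Free (classical k) dd

variable {k}

/-- vector in degree `j ≥ 0` -/
def vec (j : ℤ) (hj : 0 ≤ j) (a b : k) : (F k).M j := ⟨![a, b], fun s hs => by
  exact absurd hj (by simpa [dd] using hs)⟩

/-- coefficients of the relations, depending on a parameter `s` -/
def coef (s : k) : Fin 5 → k × k := ![(1, 0), (0, 1), (1, 0), (0, 1), (1, s)]

lemma ee_nonneg (t : Fin 5) : 0 < ee t := by
  fin_cases t <;> simp [ee]

/-- the relations -/
def rho (s : k) (t : Fin 5) : (F k).M (ee t) :=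
  vec (ee t) (ee_nonneg t).le (coef s t).1 (coef s t).2

/-- the presentation map -/
def pres (s : k) : GrHom (Free (classical k) ee) (F k) := freeDesc ee (F k) (rho s)

/-- the module `N_s = D^2 / (x^{[1]}e_1, x^{[1]}e_2, x^{[5]}e_1, x^{[25]}e_2, x^{[125]}(e_1+s e_2))` -/
def NN (s : k) : GrMod k (classical k) := (pres s).cokernel

lemma vec_ext (j : ℤ) (v : (F k).M j) (hj : 0 ≤ j) : v = vec j hj (v.1 0) (v.1 1) := by
  apply Subtype.ext
  ext1 i
  fin_cases i <;> rfl

lemma op_vec (n : ℕ) (i j : ℤ) (h : i + n = j) (hi : 0 ≤ i) (hj : 0 ≤ j) (a b : k) :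
    (F k).op n i j h (vec i hi a b) = vec j hj (((n + i.toNat).choose n : k) * a)
      (((n + i.toNat).choose n : k) * b) := by
  apply Subtype.ext
  ext1 s
  change ((n + (i - dd s).toNat).choose n : k) * (vec i hi a b).1 s = _
  have : (i - dd s).toNat = i.toNat := by simp [dd]
  rw [this]
  fin_cases s <;> rfl

/-- the relation lattice in degree `j` -/
abbrev LL (s : k) (j : ℤ) : Submodule k ((F k).M j) := LinearMap.range ((pres s).f j)

/-- generators of the relation lattice -/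
def gen (s : k) (j : ℤ) (hj : 0 ≤ j) (t : Fin 5) : (F k).M j :=
  vec j hj ((j.toNat.choose (ee t).toNat : k) * (coef s t).1)
    ((j.toNat.choose (ee t).toNat : k) * (coef s t).2)

lemma pres_eq (s : k) (j : ℤ) (hj : 0 ≤ j) (v : (Free (classical k) ee).M j) :
    (pres s).f j v = ∑ t, v.1 t • gen s j hj t := by
  change (∑ t, if h : ee t ≤ j then
        v.1 t • (F k).op (j - ee t).toNat (ee t) j (by omega) (rho s t) else 0) = _
  refine Finset.sum_congr rfl fun t _ => ?_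
  have ht := ee_nonneg t
  split_ifs with h
  · congr 1
    rw [rho, op_vec _ _ _ _ (ee_nonneg t).le hj, gen]
    have h1 : (j - ee t).toNat + (ee t).toNat = j.toNat := by omega
    rw [h1, Nat.choose_symm_of_eq_add h1.symm]
  · rw [v.2 t (by omega), zero_smul]

lemma vec_zero (j : ℤ) (hj : 0 ≤ j) : vec j hj (0 : k) 0 = 0 := by
  apply Subtype.ext; ext1 i; fin_cases i <;> rfl

lemma vec_add (j : ℤ) (hj : 0 ≤ j) (a b a' b' : k) :
    vec j hj a b + vec j hj a' b' = vec j hj (a + a') (b + b') := by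
  apply Subtype.ext; ext1 i; fin_cases i <;> rfl

lemma vec_smul (j : ℤ) (hj : 0 ≤ j) (c a b : k) :
    c • vec j hj a b = vec j hj (c * a) (c * b) := by
  apply Subtype.ext; ext1 i; fin_cases i <;> rfl

lemma gen_mem (s : k) (j : ℤ) (hj : 0 ≤ j) (t : Fin 5) : gen s j hj t ∈ LL s j := by
  by_cases h : ee t ≤ j
  · refine ⟨⟨Pi.single t 1, fun s hs => ?_⟩, ?_⟩
    · rw [Pi.single_eq_of_ne]
      rintro rfl
      omega
    · rw [pres_eq s j hj]
      rw [Finset.sum_eq_single t]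
      · simp
      · intro t' _ ht'
        simp [Pi.single_eq_of_ne ht']
      · intro h; exact absurd (Finset.mem_univ _) h
  · have ht := ee_nonneg t
    have : j.toNat.choose (ee t).toNat = 0 := Nat.choose_eq_zero_of_lt (by omega)
    rw [gen, this]
    simp only [Nat.cast_zero, zero_mul]
    rw [vec_zero]
    exact Submodule.zero_mem _

lemma LL_le (s : k) (j : ℤ) (hj : 0 ≤ j) (P : Submodule k ((F k).M j))
    (h : ∀ t, gen s j hj t ∈ P) : LL s j ≤ P := by
  rintro _ ⟨v, rfl⟩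
  rw [pres_eq s j hj]
  exact Submodule.sum_mem _ fun t _ => P.smul_mem _ (h t)

/-- the second basis vector times `j` is a relation in degree `j ≥ 1` -/
lemma mem_snd (s : k) (j : ℤ) (hj : 0 ≤ j) (b : k) (hb : (j.toNat : k) ∣ b) :
    vec j hj 0 b ∈ LL s j := by
  obtain ⟨c, rfl⟩ := hb
  have h1 : vec j hj 0 ((j.toNat : k) * c) = c • gen s j hj 1 := by
    rw [gen, vec_smul]
    congr 1
    · simp [coef]
    · simp [coef, ee, mul_comm]
  rw [h1]
  exact Submodule.smul_mem _ _ (gen_mem s j hj 1)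

/-- the scaling map `diag (1, u)` -/
def scal (j : ℤ) (u : k) : (F k).M j →ₗ[k] (F k).M j where
  toFun v := ⟨fun i => if i = 0 then v.1 i else u * v.1 i, fun s hs => by
    change (if s = 0 then v.1 s else u * v.1 s) = 0
    rw [v.2 s hs, mul_zero, ite_self]⟩
  map_add' v w := by
    apply Subtype.ext; ext1 i
    change (if i = 0 then v.1 i + w.1 i else u * (v.1 i + w.1 i)) =
      (if i = 0 then v.1 i else u * v.1 i) + (if i = 0 then w.1 i else u * w.1 i)
    split_ifs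
    · rfl
    · rw [mul_add]
  map_smul' c v := by
    apply Subtype.ext; ext1 i
    change (if i = 0 then c * v.1 i else u * (c * v.1 i)) =
      c * (if i = 0 then v.1 i else u * v.1 i)
    split_ifs
    · rfl
    · ring

lemma scal_vec (j : ℤ) (hj : 0 ≤ j) (u a b : k) :
    scal j u (vec j hj a b) = vec j hj a (u * b) := by
  apply Subtype.ext; ext1 i; fin_cases i <;> rfl

/-- `scal` maps relations to relations. -/
lemma scal_mem (s s' : k) (j : ℤ) (hj : 0 ≤ j) (u : k)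
    (hu : (j.toNat : k) ∣ (j.toNat.choose 125 : k) * (u * s - s')) :
    LL s j ≤ (LL s' j).comap (scal j u) := by
  apply LL_le s j hj
  intro t
  rw [Submodule.mem_comap, gen, scal_vec]
  fin_cases t
  · convert gen_mem s' j hj 0 using 1
    simp [gen, coef]
  · convert (LL s' j).smul_mem u (gen_mem s' j hj 1) using 1
    rw [gen, vec_smul]
    simp [coef]
  · convert gen_mem s' j hj 2 using 1
    simp [gen, coef]
  · convert (LL s' j).smul_mem u (gen_mem s' j hj 3) using 1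
    rw [gen, vec_smul]
    simp [coef]
  · convert (LL s' j).add_mem (gen_mem s' j hj 4) (mem_snd s' j hj _ hu) using 1
    rw [gen, vec_add]
    simp [coef, ee]
    ring_nf

/-! ### Arithmetic -/

/-- `n` divides `gcd(n,r) * C(n,r)`. -/
lemma dvd_gcd_mul_choose (n r : ℕ) : n ∣ Nat.gcd n r * n.choose r := by
  rcases n with _ | n
  · rcases r with _ | r
    · simp
    · simp
  rcases r with _ | r
  · simp
  · have h1 : (n + 1) ∣ (r + 1) * (n + 1).choose (r + 1) := by
      refine ⟨n.choose r, ?_⟩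
      have := Nat.add_one_mul_choose_eq n r
      rw [this]; ring
    rw [← Nat.gcd_mul_right]
    exact Nat.dvd_gcd (dvd_mul_right _ _) h1

/-- the `5`-part of `n` -/
def q5 (n : ℕ) : ℕ := 5 ^ (n.factorization 5)
/-- the prime-to-`5` part of `n` -/
def m5 (n : ℕ) : ℕ := n / 5 ^ (n.factorization 5)

lemma q5_mul_m5 (n : ℕ) : q5 n * m5 n = n := Nat.ordProj_mul_ordCompl_eq_self n 5

lemma coprime_q5_m5 (a n : ℕ) (hn : n ≠ 0) : Nat.Coprime (q5 a) (m5 n) := by
  apply Nat.Coprime.pow_left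
  exact (Nat.coprime_ordCompl Nat.prime_five hn)

lemma dvd_q5 (n d : ℕ) (hn : n ≠ 0) (h : q5 d ∣ n) : q5 d ∣ q5 n := by
  unfold q5 at *
  exact pow_dvd_pow 5 ((Nat.prime_five.pow_dvd_iff_le_factorization hn).1 h)

lemma q5_dvd (n : ℕ) : q5 n ∣ n := ⟨m5 n, (q5_mul_m5 n).symm⟩
lemma m5_dvd (n : ℕ) : m5 n ∣ n := ⟨q5 n, by rw [mul_comm, q5_mul_m5 n]⟩

lemma m5_dvd_m5 (n d : ℕ) (hd : d ≠ 0) (h : d ∣ n) : m5 d ∣ m5 n := by
  have h1 : m5 d ∣ q5 n * m5 n := by
    rw [q5_mul_m5]; exact (m5_dvd d).trans h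
  exact (coprime_q5_m5 n d hd).symm.dvd_of_dvd_mul_left h1

/-- a natural number congruent to `a` modulo the `5`-part of `n` and to `1` modulo the rest -/
def crt (n a : ℕ) : ℕ :=
  if h : n = 0 then 0 else (Nat.chineseRemainder (coprime_q5_m5 n n h) a 1).1

lemma crt_q5 (n a : ℕ) (hn : n ≠ 0) : (q5 n : ℤ) ∣ (crt n a : ℤ) - a := by
  rw [crt, dif_neg hn]
  have := (Nat.chineseRemainder (coprime_q5_m5 n n hn) a 1).2.1
  exact (Nat.modEq_iff_dvd.1 this.symm)

lemma crt_m5 (n a : ℕ) (hn : n ≠ 0) : (m5 n : ℤ) ∣ (crt n a : ℤ) - 1 := by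
  rw [crt, dif_neg hn]
  have := (Nat.chineseRemainder (coprime_q5_m5 n n hn) a 1).2.2
  exact_mod_cast (Nat.modEq_iff_dvd.1 this.symm)

/-- `u_n ≡ 2` modulo the `5`-part, `≡ 1` modulo the rest -/
def uu (n : ℕ) : ℤ := crt n 2
/-- an inverse of `u_n` modulo `n` -/
def ww (n : ℕ) : ℤ := crt n ((q5 n + 1) / 2)

lemma two_mul_half (n : ℕ) : 2 * ((q5 n + 1) / 2) = q5 n + 1 := by
  have : Odd (q5 n) := by
    unfold q5
    exact Odd.pow (by decide)
  obtain ⟨r, hr⟩ := this
  omega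

lemma mul_dvd_of_parts (n : ℕ) (hn : n ≠ 0) (z : ℤ) (h1 : (q5 n : ℤ) ∣ z) (h2 : (m5 n : ℤ) ∣ z) :
    (n : ℤ) ∣ z := by
  have hc : IsCoprime (q5 n : ℤ) (m5 n : ℤ) := Nat.isCoprime_iff_coprime.2 (coprime_q5_m5 n n hn)
  have := hc.mul_dvd h1 h2
  rwa [← Nat.cast_mul, q5_mul_m5] at this

lemma ww_q5 (n : ℕ) (hn : n ≠ 0) : (q5 n : ℤ) ∣ 2 * ww n - 1 := by
  have h1 := crt_q5 n ((q5 n + 1) / 2) hn
  have h2 : (2 : ℤ) * (((q5 n + 1) / 2 : ℕ) : ℤ) = q5 n + 1 := by
    exact_mod_cast two_mul_half n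
  have h3 : 2 * ww n - 1 = 2 * (ww n - (((q5 n + 1) / 2 : ℕ) : ℤ)) + q5 n := by
    linear_combination h2
  rw [h3]
  exact dvd_add (dvd_mul_of_dvd_right h1 _) (dvd_refl _)

lemma uu_mul_ww (n : ℕ) (hn : n ≠ 0) : (n : ℤ) ∣ uu n * ww n - 1 := by
  apply mul_dvd_of_parts n hn
  · have h1 := crt_q5 n 2 hn
    have h2 := ww_q5 n hn
    have h3 : uu n * ww n - 1 = (uu n - 2) * ww n + (2 * ww n - 1) := by ring
    rw [h3]
    exact dvd_add (dvd_mul_of_dvd_left h1 _) h2
  · have h1 := crt_m5 n 2 hn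
    have h2 := crt_m5 n ((q5 n + 1) / 2) hn
    have h3 : uu n * ww n - 1 = (uu n - 1) * ww n + (ww n - 1) := by ring
    rw [h3]
    exact dvd_add (dvd_mul_of_dvd_left h1 _) h2

lemma gcd125_dvd (n : ℕ) (hn : n ≠ 0) : Nat.gcd n 125 ∣ q5 n := by
  obtain ⟨a, _, ha⟩ := (Nat.dvd_prime_pow Nat.prime_five (m := 3)).1
    (show Nat.gcd n 125 ∣ 5 ^ 3 from Nat.gcd_dvd_right n 125)
  have h1 : 5 ^ a ∣ n := ha ▸ Nat.gcd_dvd_left n 125
  rw [ha]
  exact pow_dvd_pow 5 ((Nat.prime_five.pow_dvd_iff_le_factorization hn).1 h1)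

lemma choose125 (n : ℕ) (hn : n ≠ 0) (z : ℤ) (hz : (q5 n : ℤ) ∣ z) :
    (n : ℤ) ∣ (n.choose 125 : ℤ) * z := by
  have h1 : (n : ℤ) ∣ ((Nat.gcd n 125 * n.choose 125 : ℕ) : ℤ) :=
    Int.natCast_dvd_natCast.2 (dvd_gcd_mul_choose n 125)
  have h2 : ((Nat.gcd n 125 : ℕ) : ℤ) ∣ z :=
    (Int.natCast_dvd_natCast.2 (gcd125_dvd n hn)).trans hz
  refine h1.trans ?_
  obtain ⟨c, rfl⟩ := h2
  exact ⟨c, by push_cast; ring⟩

lemma comm_dvd (m i : ℕ) (hi : i ≠ 0) :
    ((m + i : ℕ) : ℤ) ∣ ((m + i).choose m : ℤ) * (uu (m + i) - uu i) := by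
  have hn : m + i ≠ 0 := by omega
  set d := Nat.gcd (m + i) m with hd
  have hdi : d ∣ i := by
    have h1 : d ∣ m + i := Nat.gcd_dvd_left _ _
    have h2 : d ∣ m := Nat.gcd_dvd_right _ _
    exact (Nat.dvd_add_right h2).1 h1
  have hdn : d ∣ m + i := Nat.gcd_dvd_left _ _
  have hd0 : d ≠ 0 := fun h => hi (by rw [h] at hdi; exact Nat.eq_zero_of_zero_dvd hdi)
  have h1 : ((m + i : ℕ) : ℤ) ∣ ((d * (m + i).choose m : ℕ) : ℤ) :=
    Int.natCast_dvd_natCast.2 (dvd_gcd_mul_choose (m + i) m)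
  have h2 : (d : ℤ) ∣ uu (m + i) - uu i := by
    apply mul_dvd_of_parts d hd0
    · have e1 : (q5 d : ℤ) ∣ uu (m + i) - 2 :=
        (Int.natCast_dvd_natCast.2 (dvd_q5 _ _ hn ((q5_dvd d).trans hdn))).trans (crt_q5 _ 2 hn)
      have e2 : (q5 d : ℤ) ∣ uu i - 2 :=
        (Int.natCast_dvd_natCast.2 (dvd_q5 _ _ hi ((q5_dvd d).trans hdi))).trans (crt_q5 _ 2 hi)
      have : uu (m + i) - uu i = (uu (m + i) - 2) - (uu i - 2) := by ring
      rw [this]; exact dvd_sub e1 e2
    · have e1 : (m5 d : ℤ) ∣ uu (m + i) - 1 :=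
        (Int.natCast_dvd_natCast.2 (m5_dvd_m5 _ _ hd0 hdn)).trans (crt_m5 _ 2 hn)
      have e2 : (m5 d : ℤ) ∣ uu i - 1 :=
        (Int.natCast_dvd_natCast.2 (m5_dvd_m5 _ _ hd0 hdi)).trans (crt_m5 _ 2 hi)
      have : uu (m + i) - uu i = (uu (m + i) - 1) - (uu i - 1) := by ring
      rw [this]; exact dvd_sub e1 e2
  refine h1.trans ?_
  obtain ⟨c, hc⟩ := h2
  rw [hc]
  exact ⟨c, by push_cast; ring⟩

lemma cast_dvd_k (n : ℕ) (z : ℤ) (h : (n : ℤ) ∣ z) : (n : k) ∣ (z : k) := by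
  obtain ⟨c, rfl⟩ := h
  exact ⟨(c : k), by push_cast; ring⟩

/-! ### The isomorphism of truncations -/

lemma mapsto1 (j : ℤ) (hj : 1 ≤ j) :
    LL (1 : k) j ≤ (LL (2 : k) j).comap (scal j (uu j.toNat : k)) := by
  have hn : j.toNat ≠ 0 := by omega
  apply scal_mem 1 2 j (by omega)
  have := cast_dvd_k (k := k) _ _ (choose125 j.toNat hn (uu j.toNat - 2) (crt_q5 j.toNat 2 hn))
  push_cast at this
  rw [mul_one]
  exact this

lemma mapsto2 (j : ℤ) (hj : 1 ≤ j) :
    LL (2 : k) j ≤ (LL (1 : k) j).comap (scal j (ww j.toNat : k)) := by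
  have hn : j.toNat ≠ 0 := by omega
  apply scal_mem 2 1 j (by omega)
  have := cast_dvd_k (k := k) _ _ (choose125 j.toNat hn _ (ww_q5 j.toNat hn))
  push_cast at this
  rw [mul_comm (ww j.toNat : k) 2]
  exact this

lemma comp_id (s : k) (j : ℤ) (hj : 1 ≤ j) (z z' : ℤ) (hz : (j.toNat : ℤ) ∣ z * z' - 1)
    (v : (F k).M j) :
    (Submodule.Quotient.mk (scal j (z' : k) (scal j (z : k) v)) : (F k).M j ⧸ LL s j) =
      Submodule.Quotient.mk v := by
  rw [Submodule.Quotient.eq, vec_ext j v (by omega), scal_vec, scal_vec]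
  have h1 : vec j (by omega) (v.1 0) ((z' : k) * ((z : k) * v.1 1)) -
      vec j (by omega) (v.1 0) (v.1 1) = vec j (by omega) 0 (((z * z' - 1 : ℤ) : k) * v.1 1) := by
    rw [sub_eq_iff_eq_add, vec_add]
    congr 1
    · ring
    · push_cast; ring
  rw [h1]
  exact mem_snd s j _ _ (Dvd.dvd.mul_right (cast_dvd_k _ _ hz) _)

/-- The truncations in degrees `≥ 1` of `N_1` and `N_2` are isomorphic. -/
theorem truncIso (k : Type) [CommRing k] : TruncIso 1 (NN (1 : k)) (NN (2 : k)) := by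
  refine ⟨fun j hj => LinearEquiv.ofLinearMap
    (Submodule.mapQ (LL (1 : k) j) (LL (2 : k) j) _ (mapsto1 j hj))
    (Submodule.mapQ (LL (2 : k) j) (LL (1 : k) j) _ (mapsto2 j hj)) ?_ ?_, ?_⟩
  · have hn : j.toNat ≠ 0 := by omega
    apply LinearMap.ext
    intro v
    obtain ⟨v, rfl⟩ := Submodule.Quotient.mk_surjective _ v
    change (Submodule.Quotient.mk (scal j (uu j.toNat : k) (scal j (ww j.toNat : k) v)) :
      (F k).M j ⧸ LL (2 : k) j) = Submodule.Quotient.mk v
    apply comp_id _ _ hj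
    rw [mul_comm]
    exact uu_mul_ww _ hn
  · have hn : j.toNat ≠ 0 := by omega
    apply LinearMap.ext
    intro v
    obtain ⟨v, rfl⟩ := Submodule.Quotient.mk_surjective _ v
    change (Submodule.Quotient.mk (scal j (ww j.toNat : k) (scal j (uu j.toNat : k) v)) :
      (F k).M j ⧸ LL (1 : k) j) = Submodule.Quotient.mk v
    apply comp_id _ _ hj
    exact uu_mul_ww _ hn
  · intro m i j hi hj h v
    obtain ⟨v, rfl⟩ := Submodule.Quotient.mk_surjective _ v
    change (Submodule.Quotient.mk (scal j (uu j.toNat : k) ((F k).op m i j h v)) :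
      (F k).M j ⧸ LL (2 : k) j) =
      Submodule.Quotient.mk ((F k).op m i j h (scal i (uu i.toNat : k) v))
    rw [Submodule.Quotient.eq, vec_ext i v (by omega), scal_vec,
      op_vec m i j h (by omega) (by omega), op_vec m i j h (by omega) (by omega), scal_vec]
    have hji : j.toNat = m + i.toNat := by omega
    have h1 : vec j (by omega) (((m + i.toNat).choose m : k) * v.1 0)
        ((uu j.toNat : k) * (((m + i.toNat).choose m : k) * v.1 1)) -
        vec j (by omega) (((m + i.toNat).choose m : k) * v.1 0)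
          (((m + i.toNat).choose m : k) * ((uu i.toNat : k) * v.1 1)) =
        vec j (by omega) 0
          (((((m + i.toNat).choose m : ℤ) * (uu j.toNat - uu i.toNat) : ℤ) : k) * v.1 1) := by
      rw [sub_eq_iff_eq_add, vec_add]
      congr 1
      · ring
      · push_cast; ring
    rw [h1]
    apply mem_snd
    apply Dvd.dvd.mul_right
    apply cast_dvd_k
    rw [hji]
    exact comm_dvd m i.toNat (by omega)

/-! ### The modules are not isomorphic -/

/-- linear condition modulo `5` -/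
def Pz (χ : k →+* ZMod 5) (x y : k) (j : ℤ) : Submodule k ((F k).M j) where
  carrier := {v | χ (x * v.1 0 + y * v.1 1) = 0}
  add_mem' := by
    intro v w hv hw
    change χ (x * (v.1 0 + w.1 0) + y * (v.1 1 + w.1 1)) = 0
    have : x * (v.1 0 + w.1 0) + y * (v.1 1 + w.1 1) =
      (x * v.1 0 + y * v.1 1) + (x * w.1 0 + y * w.1 1) := by ring
    rw [this, map_add, show χ (x * v.1 0 + y * v.1 1) = 0 from hv,
      show χ (x * w.1 0 + y * w.1 1) = 0 from hw, add_zero]
  zero_mem' := by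
    change χ (x * 0 + y * 0) = 0
    simp
  smul_mem' := by
    intro c v hv
    change χ (x * (c * v.1 0) + y * (c * v.1 1)) = 0
    have : x * (c * v.1 0) + y * (c * v.1 1) = c * (x * v.1 0 + y * v.1 1) := by ring
    rw [this, map_mul, show χ (x * v.1 0 + y * v.1 1) = 0 from hv, mul_zero]

lemma LL_zero (s : k) : LL s 0 = ⊥ := by
  rw [eq_bot_iff]
  apply LL_le s 0 le_rfl
  intro t
  have ht := ee_nonneg t
  have : (0 : ℤ).toNat.choose (ee t).toNat = 0 := Nat.choose_eq_zero_of_lt (by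
    have : (0 : ℤ).toNat = 0 := rfl
    omega)
  rw [gen, this]
  simp only [Nat.cast_zero, zero_mul]
  rw [vec_zero]
  exact Submodule.zero_mem _

lemma c5 (χ : k →+* ZMod 5) (n : ℕ) (h : 5 ∣ n) : χ (n : k) = 0 := by
  rw [map_natCast]
  exact (ZMod.natCast_eq_zero_iff n 5).2 h

lemma deg5 (χ : k →+* ZMod 5) : LL (2 : k) 5 ≤ Pz χ 0 1 5 := by
  apply LL_le _ _ (by norm_num)
  intro t
  change χ (0 * (((5 : ℤ).toNat.choose (ee t).toNat : k) * (coef (2 : k) t).1) +
    1 * (((5 : ℤ).toNat.choose (ee t).toNat : k) * (coef (2 : k) t).2)) = 0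
  fin_cases t
  · simp [coef]
  · have : ((5 : ℤ).toNat.choose (ee 1).toNat) = 5 := by decide
    simp only [Fin.mk_one, this]
    have := c5 χ 5 dvd_rfl
    simpa [coef] using this
  · simp [coef]
  · have : ((5 : ℤ).toNat.choose (ee 3).toNat) = 0 := by decide
    simp only [Fin.reduceFinMk, this]
    simp
  · have : ((5 : ℤ).toNat.choose (ee 4).toNat) = 0 := by decide
    simp only [Fin.reduceFinMk, this]
    simp

lemma deg25 (χ : k →+* ZMod 5) : LL (2 : k) 25 ≤ Pz χ 1 0 25 := by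
  apply LL_le _ _ (by norm_num)
  intro t
  change χ (1 * (((25 : ℤ).toNat.choose (ee t).toNat : k) * (coef (2 : k) t).1) +
    0 * (((25 : ℤ).toNat.choose (ee t).toNat : k) * (coef (2 : k) t).2)) = 0
  fin_cases t
  · have : ((25 : ℤ).toNat.choose (ee 0).toNat) = 25 := by decide
    simp only [Fin.zero_eta, this]
    have := c5 χ 25 (by norm_num)
    simpa [coef] using this
  · simp [coef]
  · have h5 : 5 ∣ ((25 : ℤ).toNat.choose (ee 2).toNat) := by
      change 5 ∣ Nat.choose 25 5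
      exact Nat.Prime.dvd_choose_pow (n := 2) Nat.prime_five (by norm_num) (by norm_num)
    have := c5 χ _ h5
    simp only [Fin.reduceFinMk]
    rw [map_add, map_mul, map_mul, this]
    simp
  · simp [coef]
  · have : ((25 : ℤ).toNat.choose (ee 4).toNat) = 0 := by
      change Nat.choose 25 125 = 0
      exact Nat.choose_eq_zero_of_lt (by norm_num)
    simp only [Fin.reduceFinMk, this]
    simp

lemma deg125 (χ : k →+* ZMod 5) : LL (2 : k) 125 ≤ Pz χ (-2) 1 125 := by
  apply LL_le _ _ (by norm_num)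
  intro t
  change χ (-2 * (((125 : ℤ).toNat.choose (ee t).toNat : k) * (coef (2 : k) t).1) +
    1 * (((125 : ℤ).toNat.choose (ee t).toNat : k) * (coef (2 : k) t).2)) = 0
  have key : ∀ (n : ℕ) (a b : k), 5 ∣ n → χ (-2 * ((n : k) * a) + 1 * ((n : k) * b)) = 0 := by
    intro n a b h
    rw [map_add, map_mul, map_mul, map_mul, map_mul, c5 χ n h]
    simp
  fin_cases t
  · apply key
    change 5 ∣ Nat.choose 125 1
    norm_num
  · apply key
    change 5 ∣ Nat.choose 125 1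
    norm_num
  · apply key
    change 5 ∣ Nat.choose 125 5
    exact Nat.Prime.dvd_choose_pow (n := 3) Nat.prime_five (by norm_num) (by norm_num)
  · apply key
    change 5 ∣ Nat.choose 125 25
    exact Nat.Prime.dvd_choose_pow (n := 3) Nat.prime_five (by norm_num) (by norm_num)
  · have : ((125 : ℤ).toNat.choose (ee 4).toNat) = 1 := by
      change Nat.choose 125 125 = 1
      exact Nat.choose_self _
    simp only [Fin.reduceFinMk, this]
    simp [coef]

/-- class of a vector in `N_s` -/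
def cl (s : k) (j : ℤ) (hj : 0 ≤ j) (a b : k) : (NN s).M j :=
  (Submodule.Quotient.mk (vec j hj a b) : (F k).M j ⧸ LL s j)

lemma cl_surj (s : k) (j : ℤ) (hj : 0 ≤ j) (z : (NN s).M j) : ∃ a b, z = cl s j hj a b := by
  obtain ⟨v, rfl⟩ := Submodule.Quotient.mk_surjective (LL s j) z
  exact ⟨v.1 0, v.1 1, by rw [cl, ← vec_ext]⟩

lemma cl_add (s : k) (j : ℤ) (hj : 0 ≤ j) (a b a' b' : k) :
    cl s j hj a b + cl s j hj a' b' = cl s j hj (a + a') (b + b') := by
  unfold cl
  rw [← vec_add]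
  rfl

lemma cl_smul (s : k) (j : ℤ) (hj : 0 ≤ j) (c a b : k) :
    c • cl s j hj a b = cl s j hj (c * a) (c * b) := by
  unfold cl
  rw [← vec_smul]
  rfl

lemma cl_op (s : k) (n : ℕ) (j : ℤ) (h : (0 : ℤ) + n = j) (hj : 0 ≤ j) (a b : k) :
    (NN s).op n 0 j h (cl s 0 le_rfl a b) = cl s j hj a b := by
  change (Submodule.Quotient.mk ((F k).op n 0 j h (vec 0 le_rfl a b)) : (F k).M j ⧸ LL s j) = _
  rw [op_vec n 0 j h le_rfl hj, cl]
  simp

lemma cl_zero_inj (s : k) (a b a' b' : k) (h : cl s 0 le_rfl a b = cl s 0 le_rfl a' b') :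
    a = a' ∧ b = b' := by
  have h0 : vec 0 le_rfl a b - vec 0 le_rfl a' b' ∈ LL s 0 :=
    (Submodule.Quotient.eq (LL s 0)).1 h
  rw [LL_zero, Submodule.mem_bot, sub_eq_zero] at h0
  exact ⟨congrArg (fun v : (F k).M 0 => v.1 0) h0, congrArg (fun v : (F k).M 0 => v.1 1) h0⟩

lemma cl_eq_zero (s : k) (j : ℤ) (hj : 0 ≤ j) (a b : k) (h : cl s j hj a b = 0) :
    vec j hj a b ∈ LL s j := by
  rw [cl] at h
  exact (Submodule.Quotient.mk_eq_zero (LL s j)).1 h

theorem not_iso (χ : k →+* ZMod 5) (hχ : ∀ u : k, IsUnit u → χ u = 1 ∨ χ u = -1) :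
    ¬ GrIso (NN (1 : k)) (NN (2 : k)) := by
  rintro ⟨φ, hφ⟩
  obtain ⟨α, γ, h1⟩ := cl_surj (2 : k) 0 le_rfl (φ 0 (cl 1 0 le_rfl 1 0))
  obtain ⟨β, δ, h2⟩ := cl_surj (2 : k) 0 le_rfl (φ 0 (cl 1 0 le_rfl 0 1))
  obtain ⟨α', γ', h1'⟩ := cl_surj (1 : k) 0 le_rfl ((φ 0).symm (cl 2 0 le_rfl 1 0))
  obtain ⟨β', δ', h2'⟩ := cl_surj (1 : k) 0 le_rfl ((φ 0).symm (cl 2 0 le_rfl 0 1))
  have hlin : ∀ a b : k, φ 0 (cl 1 0 le_rfl a b) = cl 2 0 le_rfl (a * α + b * β) (a * γ + b * δ) := by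
    intro a b
    have : cl (1 : k) 0 le_rfl a b = a • cl 1 0 le_rfl 1 0 + b • cl 1 0 le_rfl 0 1 := by
      rw [cl_smul, cl_smul, cl_add]; simp
    rw [this, map_add, map_smul, map_smul, h1, h2, cl_smul, cl_smul, cl_add]
  have e1 : cl (2 : k) 0 le_rfl 1 0 = cl 2 0 le_rfl (α' * α + γ' * β) (α' * γ + γ' * δ) := by
    rw [← hlin, ← h1', LinearEquiv.apply_symm_apply]
  have e2 : cl (2 : k) 0 le_rfl 0 1 = cl 2 0 le_rfl (β' * α + δ' * β) (β' * γ + δ' * δ) := by
    rw [← hlin, ← h2', LinearEquiv.apply_symm_apply]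
  obtain ⟨a1, a2⟩ := cl_zero_inj _ _ _ _ _ e1
  obtain ⟨a3, a4⟩ := cl_zero_inj _ _ _ _ _ e2
  have hdet : (α * δ - β * γ) * (α' * δ' - β' * γ') = 1 := by
    have : (α * δ - β * γ) * (α' * δ' - β' * γ') =
      (α' * α + γ' * β) * (β' * γ + δ' * δ) - (β' * α + δ' * β) * (α' * γ + γ' * δ) := by ring
    rw [this, ← a1, ← a2, ← a3, ← a4]; ring
  have hunit : IsUnit (α * δ - β * γ) := IsUnit.of_mul_eq_one _ hdet
  -- constraints from the relations
  have r1 : χ γ = 0 := by
    have hz : cl (1 : k) 5 (by norm_num) 1 0 = 0 := by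
      rw [cl]
      refine (Submodule.Quotient.mk_eq_zero (LL (1 : k) 5)).2 ?_
      have := gen_mem (1 : k) 5 (by norm_num) 2
      have h55 : ((5 : ℤ).toNat.choose (ee 2).toNat) = 1 := by decide
      rw [gen, h55] at this
      simpa [coef] using this
    have h3 := hφ 5 0 5 (by norm_num) (cl 1 0 le_rfl 1 0)
    rw [cl_op 1 5 5 (by norm_num) (by norm_num), hz, map_zero, h1,
      cl_op 2 5 5 (by norm_num) (by norm_num)] at h3
    have h4 := deg5 χ (cl_eq_zero _ _ _ _ _ h3.symm)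
    have h5 : χ (0 * α + 1 * γ) = 0 := h4
    simpa using h5
  have r2 : χ β = 0 := by
    have hz : cl (1 : k) 25 (by norm_num) 0 1 = 0 := by
      rw [cl]
      refine (Submodule.Quotient.mk_eq_zero (LL (1 : k) 25)).2 ?_
      have := gen_mem (1 : k) 25 (by norm_num) 3
      have h55 : ((25 : ℤ).toNat.choose (ee 3).toNat) = 1 := by
        change Nat.choose 25 25 = 1
        exact Nat.choose_self _
      rw [gen, h55] at this
      simpa [coef] using this
    have h3 := hφ 25 0 25 (by norm_num) (cl 1 0 le_rfl 0 1)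
    rw [cl_op 1 25 25 (by norm_num) (by norm_num), hz, map_zero, h2,
      cl_op 2 25 25 (by norm_num) (by norm_num)] at h3
    have h4 := deg25 χ (cl_eq_zero _ _ _ _ _ h3.symm)
    have h5 : χ (1 * β + 0 * δ) = 0 := h4
    simpa using h5
  have r3 : χ (-2 * (α + β) + 1 * (γ + δ)) = 0 := by
    have hz : cl (1 : k) 125 (by norm_num) 1 1 = 0 := by
      rw [cl]
      refine (Submodule.Quotient.mk_eq_zero (LL (1 : k) 125)).2 ?_
      have := gen_mem (1 : k) 125 (by norm_num) 4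
      have h55 : ((125 : ℤ).toNat.choose (ee 4).toNat) = 1 := by
        change Nat.choose 125 125 = 1
        exact Nat.choose_self _
      rw [gen, h55] at this
      simpa [coef] using this
    have h3 := hφ 125 0 125 (by norm_num) (cl 1 0 le_rfl 1 1)
    rw [cl_op 1 125 125 (by norm_num) (by norm_num), hz, map_zero, hlin,
      cl_op 2 125 125 (by norm_num) (by norm_num)] at h3
    have h4 := deg125 χ (cl_eq_zero _ _ _ _ _ h3.symm)
    have h5 : χ (-2 * (1 * α + 1 * β) + 1 * (1 * γ + 1 * δ)) = 0 := h4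
    simpa using h5
  have hd : χ δ = 2 * χ α := by
    simp only [map_add, map_mul, map_neg, map_one, map_ofNat, r1, r2] at r3
    linear_combination r3
  have hfin : χ (α * δ - β * γ) = 2 * (χ α) ^ 2 := by
    rw [map_sub, map_mul, map_mul, r1, r2, hd]; ring
  have hdec : ∀ z : ZMod 5, 2 * z ^ 2 ≠ 1 ∧ 2 * z ^ 2 ≠ -1 := by decide
  rcases hχ _ hunit with h | h
  · rw [hfin] at h; exact (hdec _).1 h
  · rw [hfin] at h; exact (hdec _).2 h

/-- **Q1 has a negative answer**: over `ℤ` there are non-isomorphic finitely presented graded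
modules `N, N'` over the divided power algebra with `τ_{≥ 1} N ≅ τ_{≥ 1} N'`. -/
theorem result : ∃ N N' : GrMod ℤ (classical ℤ), IsFinPres N ∧ IsFinPres N' ∧
    ¬ GrIso N N' ∧ ∃ n : ℤ, TruncIso n N N' := by
  refine ⟨NN 1, NN 2, isFinPres_cokernel _, isFinPres_cokernel _,
    not_iso (Int.castRingHom (ZMod 5)) ?_, 1, truncIso ℤ⟩
  intro u hu
  rcases Int.isUnit_iff.1 hu with rfl | rfl
  · left; simp
  · right; simp

end

end Pool.Agent.Results.MP_c3bf79_al.EnvelopesNotUnique
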